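import Pool.Agent.N662.FP.Stm2

set_option autoImplicit false
open MeasureTheory ProbabilityTheory Filter Set
open scoped ENNReal Pointwise Topology

namespace Pool.Agent.N585.FM

open Pool.Agent.N662.FP

/-- three points -/
theorem three {G : ℝ → ℝ}
    (hf : ∀ (x y θ : ℝ), x ≤ y → 0 < θ → θ < 1 → G x ^ θ * G y ^ (1 - θ) ≤ G (θ * x + (1 - θ) * y))
    {x b y : ℝ} (h1 : x < b) (h2 : b < y) (hx : 0 < G x) (hb : 0 < G b) (hy : 0 < G y) :
    (y - b) * (Real.log (G x) - Real.log (G b)) ≤ (b - x) * (Real.log (G b) - Real.log (G y)) := by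
  have hxy : 0 < y - x := by linarith
  have hθ0 : 0 < (y - b) / (y - x) := div_pos (by linarith) hxy
  have hθ1 : (y - b) / (y - x) < 1 := by rw [div_lt_one hxy]; linarith
  have h := hf x y _ (by linarith) hθ0 hθ1
  have e : (y - b) / (y - x) * x + (1 - (y - b) / (y - x)) * y = b := by
    field_simp
    ring
  rw [e] at h
  have h3 := Real.log_le_log (mul_pos (Real.rpow_pos_of_pos hx _) (Real.rpow_pos_of_pos hy _)) h
  rw [Real.log_mul (Real.rpow_pos_of_pos hx _).ne' (Real.rpow_pos_of_pos hy _).ne',
    Real.log_rpow hx, Real.log_rpow hy] at h3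
  have h4 := mul_le_mul_of_nonneg_left h3 hxy.le
  have e2 : (y - x) * ((y - b) / (y - x) * Real.log (G x) +
      (1 - (y - b) / (y - x)) * Real.log (G y)) =
      (y - b) * Real.log (G x) + (b - x) * Real.log (G y) := by
    field_simp
    ring
  rw [e2] at h4
  linarith

theorem t_LINE (h : S_FULL) : S_LINE := by
  intro G h0 h1 hanti hmid hlim b u hu hb1 hbu
  have hf := h G h0 hanti hmid
  have hb : 0 < G b := hbu.trans_le (hanti (by linarith))
  have hpos : ∀ x, x < b → 0 < G x := fun x hx => hb.trans_le (hanti hx.le)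
  set s : ℝ → ℝ := fun x => (Real.log (G x) - Real.log (G b)) / (b - x) with hs
  have hup : ∀ y, b < y → 0 < G y → ∀ x, x < b → s x ≤ (Real.log (G b) - Real.log (G y)) / (y - b) := by
    intro y hy hGy x hx
    have h3 := three hf hx hy (hpos x hx) hb hGy
    rw [hs]
    simp only
    rw [div_le_div_iff₀ (by linarith) (by linarith)]
    linarith
  have hbdd : BddAbove (s '' Iio b) := by
    refine ⟨(Real.log (G b) - Real.log (G (b + u))) / (b + u - b), ?_⟩
    rintro _ ⟨x, hx, rfl⟩
    exact hup (b + u) (by linarith) hbu x hx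
  have hne : (s '' Iio b).Nonempty := ⟨_, b - 1, by simp, rfl⟩
  have hle : ∀ x, x < b → s x ≤ sSup (s '' Iio b) := fun x hx => le_csSup hbdd ⟨x, hx, rfl⟩
  refine ⟨sSup (s '' Iio b), ?_, ?_⟩
  · have h4 : ∀ᶠ x in atBot, G b < G x := hlim.eventually (lt_mem_nhds hb1)
    obtain ⟨x, hx1, hx2⟩ := (h4.and (eventually_lt_atBot b)).exists
    refine lt_of_lt_of_le ?_ (hle x hx2)
    rw [hs]
    exact div_pos (by linarith [Real.log_lt_log hb hx1]) (by linarith)
  · intro x
    rcases lt_trichotomy x b with hx | hx | hx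
    · have h5 := hle x hx
      have h6 : Real.log (G x) - Real.log (G b) ≤ sSup (s '' Iio b) * (b - x) := by
        have : s x * (b - x) = Real.log (G x) - Real.log (G b) := by
          rw [hs]
          simp only
          have : b - x ≠ 0 := by linarith
          field_simp
        rw [← this]
        exact mul_le_mul_of_nonneg_right h5 (by linarith)
      rw [← Real.log_le_log_iff (hpos x hx) (mul_pos hb (Real.exp_pos _)),
        Real.log_mul hb.ne' (Real.exp_pos _).ne', Real.log_exp]
      linarith
    · rw [hx, sub_self, mul_zero, neg_zero, Real.exp_zero, mul_one]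
    · rcases (h0 x).eq_or_lt with h5 | h5
      · rw [← h5]
        positivity
      · have h6 : sSup (s '' Iio b) ≤ (Real.log (G b) - Real.log (G x)) / (x - b) := by
          refine csSup_le hne ?_
          rintro _ ⟨z, hz, rfl⟩
          exact hup x hx h5 z hz
        rw [le_div_iff₀ (by linarith)] at h6
        rw [← Real.log_le_log_iff h5 (mul_pos hb (Real.exp_pos _)),
          Real.log_mul hb.ne' (Real.exp_pos _).ne', Real.log_exp]
        linarith

end Pool.Agent.N585.FM
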